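import Mathlib

/-! # MP_9f168b_al: a simple solution of the Yang-Baxter equation of size 8 whose blocks have size 4 -/

set_option autoImplicit false

namespace Pool.Agent.Results.MP_9f168b_al.TwoByFour

/-- `r₁₂ = r × id` on `X³`. -/
def r12 {X : Type*} (r : X × X → X × X) (t : X × X × X) : X × X × X :=
  ((r (t.1, t.2.1)).1, (r (t.1, t.2.1)).2, t.2.2)

/-- `r₂₃ = id × r` on `X³`. -/
def r23 {X : Type*} (r : X × X → X × X) (t : X × X × X) : X × X × X :=
  (t.1, (r (t.2.1, t.2.2)).1, (r (t.2.1, t.2.2)).2)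

/-- Involutive non-degenerate solution of the Yang-Baxter equation. -/
structure IsSolution {X : Type*} (r : X × X → X × X) : Prop where
  nonempty : Nonempty X
  invol : ∀ p, r (r p) = p
  left : ∀ x, Function.Bijective fun y => (r (x, y)).1
  right : ∀ y, Function.Bijective fun x => (r (x, y)).2
  braid : ∀ t, r12 r (r23 r (r12 r t)) = r23 r (r12 r (r23 r t))

/-- Homomorphism of solutions. -/
def IsHom {X X' : Type*} (r : X × X → X × X) (r' : X' × X' → X' × X') (f : X → X') : Prop :=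
  ∀ p, Prod.map f f (r p) = r' (Prod.map f f p)

/-- Simple solution: more than one element, and every epimorphism onto a solution is bijective or
has a one-element target. -/
def IsSimple {X : Type*} (r : X × X → X × X) : Prop :=
  IsSolution r ∧ Nontrivial X ∧
    ∀ (X' : Type) (r' : X' × X' → X' × X') (f : X → X'), IsSolution r' → IsHom r r' f →
      Function.Surjective f → Function.Bijective f ∨ Nat.card X' = 1

/-- The permutation `σ_x : y ↦ (r (x, y)).1`. -/
noncomputable def sigma {X : Type*} {r : X × X → X × X} (h : IsSolution r) (x : X) :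
    Equiv.Perm X :=
  Equiv.ofBijective (fun y => (r (x, y)).1) (h.left x)

/-- The permutation group `𝒢(X, r)`. -/
noncomputable def permGroup {X : Type*} {r : X × X → X × X} (h : IsSolution r) :
    Subgroup (Equiv.Perm X) :=
  Subgroup.closure (Set.range (sigma h))

/-! ### The example -/

/-- `σ` on `Fin 8` -/
def s8 : Fin 8 → Fin 8 → Fin 8 :=
  ![![0, 1, 3, 2, 4, 5, 6, 7], ![4, 5, 6, 7, 3, 2, 0, 1], ![1, 0, 2, 3, 4, 5, 6, 7],
    ![4, 5, 6, 7, 2, 3, 1, 0], ![0, 1, 2, 3, 4, 5, 7, 6], ![7, 6, 4, 5, 0, 1, 2, 3],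
    ![0, 1, 2, 3, 5, 4, 6, 7], ![6, 7, 5, 4, 0, 1, 2, 3]]

/-- `τ` on `Fin 8`: `t8 y x = τ_y(x)` -/
def t8 : Fin 8 → Fin 8 → Fin 8 :=
  ![![0, 1, 5, 3, 4, 2, 6, 7], ![6, 5, 3, 7, 0, 4, 2, 1], ![7, 1, 2, 3, 4, 5, 6, 0],
    ![1, 5, 4, 7, 0, 3, 2, 6], ![0, 6, 2, 3, 4, 5, 1, 7], ![4, 0, 6, 5, 2, 1, 7, 3],
    ![0, 1, 2, 4, 3, 5, 6, 7], ![4, 7, 6, 2, 5, 1, 0, 3]]

/-- the solution on `Fin 8` -/
def r8 (p : Fin 8 × Fin 8) : Fin 8 × Fin 8 := (s8 p.1 p.2, t8 p.2 p.1)

/-- coordinates -/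
def e : Fin 2 × Fin 4 ≃ Fin 8 := finProdFinEquiv

/-- the solution on `Fin 2 × Fin 4` -/
def r (p : (Fin 2 × Fin 4) × (Fin 2 × Fin 4)) : (Fin 2 × Fin 4) × (Fin 2 × Fin 4) :=
  (e.symm (r8 (e p.1, e p.2)).1, e.symm (r8 (e p.1, e p.2)).2)

lemma invol8 : ∀ x y, r8 (r8 (x, y)) = (x, y) := by decide +kernel
lemma left8 : ∀ x y y', s8 x y = s8 x y' → y = y' := by decide +kernel
lemma right8 : ∀ y x x', t8 y x = t8 y x' → x = x' := by decide +kernel
lemma braid8 : ∀ x y z, r12 r8 (r23 r8 (r12 r8 (x, y, z))) =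
    r23 r8 (r12 r8 (r23 r8 (x, y, z))) := by decide +kernel

lemma solution : IsSolution r where
  nonempty := ⟨(0, 0)⟩
  invol := by
    rintro ⟨x, y⟩
    simp only [r, Equiv.apply_symm_apply, Prod.mk.eta]
    rw [invol8]
    simp
  left x := by
    rw [← Finite.injective_iff_bijective]
    intro y y' h
    have h' := e.symm.injective h
    exact e.injective (left8 _ _ _ h')
  right y := by
    rw [← Finite.injective_iff_bijective]
    intro x x' h
    have h' := e.symm.injective h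
    exact e.injective (right8 _ _ _ h')
  braid := by
    rintro ⟨x, y, z⟩
    have h := braid8 (e x) (e y) (e z)
    simp only [r12, r23, Prod.mk.injEq] at h
    simp only [r12, r23, r, Equiv.apply_symm_apply, Prod.mk.injEq, EmbeddingLike.apply_eq_iff_eq]
    exact h

/-- elementary consequences of a pair of congruent elements -/
def ap (o : Fin 16) (p q : Fin 8) : Fin 8 × Fin 8 :=
  if h : o.val < 8 then (s8 ⟨o, h⟩ p, s8 ⟨o, h⟩ q)
  else (s8 p ⟨o - 8, by omega⟩, s8 q ⟨o - 8, by omega⟩)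

lemma to01 : ∀ p q : Fin 8, p ≠ q → ∃ o o' : Fin 16,
    ap o p q = (0, 1) ∨ ap o' (ap o p q).1 (ap o p q).2 = (0, 1) := by decide +kernel

lemma from01 : ∀ q : Fin 8, q ≠ 0 → ∃ o o' : Fin 16,
    ap o 0 1 = (0, q) ∨ ap o' (ap o 0 1).1 (ap o 0 1).2 = (0, q) ∨
    ∃ o'' : Fin 16, ap o'' (ap o' (ap o 0 1).1 (ap o 0 1).2).1
      (ap o' (ap o 0 1).1 (ap o 0 1).2).2 = (0, q) := by decide +kernel


lemma simple : IsSimple r := by
  refine ⟨solution, inferInstance, ?_⟩
  intro X' r' f hr' hf hsurj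
  by_cases hinj : Function.Injective f
  · exact Or.inl ⟨hinj, hsurj⟩
  right
  set F : Fin 8 → X' := fun p => f (e.symm p) with hF
  -- the homomorphism property for the first components
  have hom : ∀ p q : Fin 8, F (s8 p q) = (r' (F p, F q)).1 := by
    intro p q
    have h := congrArg Prod.fst (hf (e.symm p, e.symm q))
    simpa [r, r8, hF] using h
  have closed : ∀ (o : Fin 16) (p q : Fin 8), F p = F q → F (ap o p q).1 = F (ap o p q).2 := by
    intro o p q h
    unfold ap
    split_ifs with ho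
    · simp only [hom, h]
    · simp only [hom, h]
  have h01 : F 0 = F 1 := by
    simp only [Function.Injective, not_forall] at hinj
    obtain ⟨a, b, hab, hne⟩ := hinj
    have hK : F (e a) = F (e b) := by simpa [hF] using hab
    have hne' : e a ≠ e b := fun h => hne (e.injective h)
    obtain ⟨o, o', h | h⟩ := to01 _ _ hne'
    · have := closed o _ _ hK
      rwa [h] at this
    · have := closed o' _ _ (closed o _ _ hK)
      rwa [h] at this
  have hall : ∀ q, F 0 = F q := by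
    intro q
    by_cases hq : q = 0
    · rw [hq]
    obtain ⟨o, o', h | h | ⟨o'', h⟩⟩ := from01 q hq
    · have := closed o _ _ h01
      rwa [h] at this
    · have := closed o' _ _ (closed o _ _ h01)
      rwa [h] at this
    · have := closed o'' _ _ (closed o' _ _ (closed o _ _ h01))
      rwa [h] at this
  rw [Nat.card_eq_one_iff_unique]
  refine ⟨⟨fun x y => ?_⟩, ⟨F 0⟩⟩
  obtain ⟨a, rfl⟩ := hsurj x
  obtain ⟨b, rfl⟩ := hsurj y
  have h1 := hall (e a)
  have h2 := hall (e b)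
  simp only [hF, Equiv.symm_apply_apply] at h1 h2
  rw [← h1, ← h2]

lemma blocks_gen : ∀ x : Fin 8, (∀ y, (e.symm (s8 x y)).1 = (e.symm y).1) ∨
    (∀ y, (e.symm (s8 x y)).1 = Equiv.swap 0 1 (e.symm y).1) := by decide +kernel

lemma blocks (g : Equiv.Perm (Fin 2 × Fin 4)) (hg : g ∈ permGroup solution) :
    ∃ π : Equiv.Perm (Fin 2), ∀ x, (g x).1 = π x.1 := by
  induction hg using Subgroup.closure_induction with
  | mem g hg =>
    obtain ⟨x, rfl⟩ := hg
    rcases blocks_gen (e x) with h | h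
    · refine ⟨1, fun y => ?_⟩
      have := h (e y)
      rw [Equiv.symm_apply_apply] at this
      exact this
    · refine ⟨Equiv.swap 0 1, fun y => ?_⟩
      have := h (e y)
      rw [Equiv.symm_apply_apply] at this
      exact this
  | one => exact ⟨1, fun _ => rfl⟩
  | mul g g' _ _ h h' =>
    obtain ⟨π, hπ⟩ := h
    obtain ⟨π', hπ'⟩ := h'
    exact ⟨π * π', fun x => by rw [Equiv.Perm.mul_apply, hπ, hπ']; rfl⟩
  | inv g _ h =>
    obtain ⟨π, hπ⟩ := h
    refine ⟨π⁻¹, fun x => ?_⟩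
    rw [Equiv.Perm.eq_inv_iff_eq, ← hπ]
    exact congrArg Prod.fst (g.apply_symm_apply x)

/-- **MP_9f168b_al, Q1: yes.** There is a finite simple solution on `Y × Z` (with `|Y| = 2` and
`|Z| = 4`) for which the sets `X_y = {y} × Z` are blocks of imprimitivity for `𝒢(X, r)` and `|Z|`
does not divide `|Y|`. -/
theorem result : ∃ (Y Z : Type) (_ : Fintype Y) (_ : Fintype Z)
    (r : (Y × Z) × (Y × Z) → (Y × Z) × (Y × Z)) (h : IsSolution r), 1 < Fintype.card Y ∧ 1 < Fintype.card Z ∧ IsSimple r ∧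
      (∀ g ∈ permGroup h, ∀ y : Y, ∃ y' : Y, g '' {x | x.1 = y} = {x | x.1 = y'}) ∧
      ¬ Fintype.card Z ∣ Fintype.card Y := by
  refine ⟨Fin 2, Fin 4, inferInstance, inferInstance, r, solution, by decide, by decide, simple,
    ?_, by decide⟩
  intro g hg y
  obtain ⟨π, hπ⟩ := blocks g hg
  refine ⟨π y, ?_⟩
  ext x
  simp only [Set.mem_image, Set.mem_ofPred_eq]
  constructor
  · rintro ⟨z, rfl, rfl⟩
    exact hπ z
  · intro hx
    refine ⟨g.symm x, ?_, g.apply_symm_apply x⟩
    apply π.injective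
    rw [← hπ, g.apply_symm_apply, hx]

end Pool.Agent.Results.MP_9f168b_al.TwoByFour
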